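import Mathlib.LinearAlgebra.Matrix.ToLin
import Mathlib.LinearAlgebra.Matrix.NonsingularInverse
import Mathlib.LinearAlgebra.Span.Basic
import Mathlib.LinearAlgebra.Dimension.Finrank
import Mathlib.LinearAlgebra.Dimension.Constructions
import Mathlib.Algebra.Algebra.Opposite
import Mathlib.Tactic.FinCases
import Mathlib.Tactic.NormNum
import Mathlib.Tactic.LinearCombination
import Mathlib.Tactic.FieldSimp
import Mathlib.Tactic.Module

/-!
# The third element of a Leonard triple and equitable modules: a counterexample of diameter two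

Negative answer to Q1 of MP_a7ee28_al.
-/

set_option autoImplicit false

open Matrix MulOpposite

namespace Pool.Agent.Results.MP_a7ee28_al.ThirdElement

variable {K : Type*} [Field K] {V : Type*} [AddCommGroup V] [Module K V]

/-- A diagonal matrix. -/
def IsDiagonal {n : ℕ} (M : Matrix (Fin n) (Fin n) K) : Prop := ∀ i j, i ≠ j → M i j = 0

/-- An irreducible tridiagonal matrix. -/
def IsIrredTridiagonal {n : ℕ} (M : Matrix (Fin n) (Fin n) K) : Prop :=
  (∀ i j : Fin n, (i.val + 1 < j.val ∨ j.val + 1 < i.val) → M i j = 0) ∧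
    ∀ i j : Fin n, (i.val + 1 = j.val ∨ j.val + 1 = i.val) → M i j ≠ 0

/-- There is a basis in which `X` is diagonal and `Y` is irreducible tridiagonal. -/
def HasPairBasis (X Y : V →ₗ[K] V) : Prop :=
  ∃ (n : ℕ) (b : Module.Basis (Fin n) K V), IsDiagonal (LinearMap.toMatrix b b X) ∧
    IsIrredTridiagonal (LinearMap.toMatrix b b Y)

/-- There is a basis in which `X` is diagonal and `Y`, `Z` are irreducible tridiagonal. -/
def HasTripleBasis (X Y Z : V →ₗ[K] V) : Prop :=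
  ∃ (n : ℕ) (b : Module.Basis (Fin n) K V), IsDiagonal (LinearMap.toMatrix b b X) ∧
    IsIrredTridiagonal (LinearMap.toMatrix b b Y) ∧ IsIrredTridiagonal (LinearMap.toMatrix b b Z)

/-- A Leonard pair on `V`. -/
def IsLeonardPair (A B : V →ₗ[K] V) : Prop := HasPairBasis A B ∧ HasPairBasis B A

/-- A Leonard triple on `V`. -/
def IsLeonardTriple (A B C : V →ₗ[K] V) : Prop :=
  HasTripleBasis A B C ∧ HasTripleBasis B A C ∧ HasTripleBasis C A B

/-- The maps `X, X', Y, Z` define an irreducible module structure for the equitable presentation of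
`U_q(sl_2)` on `V`, where `X'` is the action of the inverse of `X`. -/
def IsIrredModule (q : K) (X X' Y Z : V →ₗ[K] V) : Prop :=
  X * X' = 1 ∧ X' * X = 1 ∧
    (q - q⁻¹)⁻¹ • (q • (X * Y) - q⁻¹ • (Y * X)) = 1 ∧
    (q - q⁻¹)⁻¹ • (q • (Y * Z) - q⁻¹ • (Z * Y)) = 1 ∧
    (q - q⁻¹)⁻¹ • (q • (Z * X) - q⁻¹ • (X * Z)) = 1 ∧
    Nontrivial V ∧ ∀ W : Submodule K V, (∀ w ∈ W, X w ∈ W) → (∀ w ∈ W, X' w ∈ W) →
      (∀ w ∈ W, Y w ∈ W) → (∀ w ∈ W, Z w ∈ W) → W = ⊥ ∨ W = ⊤

/-- `T` is a linear combination of `I, P, Q, PQ`. -/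
def IsComb (T P Q : V →ₗ[K] V) : Prop :=
  ∃ a b c d : K, T = a • 1 + b • P + c • Q + d • (P * Q)

/-- The data of the question: `A` is a combination of `I, X, Y, XY`, `B` is a combination of
`I, Y, Z, YZ` for an irreducible module structure, and `A, B` is a Leonard pair that extends to the
Leonard triple `A, B, C`. -/
def IsData (q : K) (A B C X X' Y Z : V →ₗ[K] V) : Prop :=
  IsIrredModule q X X' Y Z ∧ IsComb A X Y ∧ IsComb B Y Z ∧ IsLeonardPair A B ∧
    IsLeonardTriple A B C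

/-- `s` is an antiautomorphism of `End V` that fixes `A` and `B`. -/
def IsDagger (A B : V →ₗ[K] V) (s : (V →ₗ[K] V) →ₗ[K] (V →ₗ[K] V)) : Prop :=
  Function.Bijective s ∧ (∀ S T, s (S * T) = s T * s S) ∧ s A = A ∧ s B = B

theorem pair_of_triple {A B C : V →ₗ[K] V} (h : IsLeonardTriple A B C) : IsLeonardPair A B := by
  obtain ⟨⟨n, b, h1, h2, -⟩, ⟨m, c, h3, h4, -⟩, -⟩ := h
  exact ⟨⟨n, b, h1, h2⟩, ⟨m, c, h3, h4⟩⟩

theorem good_of_conj {n : ℕ} (P Q X Y Z D E F : Matrix (Fin n) (Fin n) K) (hPQ : P * Q = 1)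
    (hQP : Q * P = 1) (hX : Q * X * P = D) (hY : Q * Y * P = E) (hZ : Q * Z * P = F)
    (hD : IsDiagonal D) (hE : IsIrredTridiagonal E) (hF : IsIrredTridiagonal F) :
    HasTripleBasis (Matrix.toLin' X) (Matrix.toLin' Y) (Matrix.toLin' Z) := by
  let b : Module.Basis (Fin n) K (Fin n → K) :=
    (Pi.basisFun K (Fin n)).map (Matrix.toLin'OfInv hQP hPQ)
  have h : ∀ M : Matrix (Fin n) (Fin n) K, LinearMap.toMatrix b b (Matrix.toLin' M) = Q * M * P := by
    intro M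
    ext i j
    rw [LinearMap.toMatrix_apply]
    simp only [b, Module.Basis.map_apply, Module.Basis.map_repr, LinearEquiv.trans_apply,
      Matrix.toLin'OfInv]
    simp only [Pi.basisFun_apply, Pi.basisFun_repr, Matrix.toLin'_apply, LinearEquiv.coe_mk]
    change (Q *ᵥ (M *ᵥ (P *ᵥ Pi.single j 1))) i = _
    rw [Matrix.mulVec_mulVec, Matrix.mulVec_mulVec, Matrix.mulVec_single_one]
    rfl
  exact ⟨n, b, by rw [h, hX]; exact hD, by rw [h, hY]; exact hE, by rw [h, hZ]; exact hF⟩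

variable (K)

def mX : Matrix (Fin 3) (Fin 3) K := !![1/4, 0, 0; 1/4, 1, 0; 0, 1, 4]

def mX' : Matrix (Fin 3) (Fin 3) K := !![4, 0, 0; -1, 1, 0; 1/4, -1/4, 1/4]

def mY : Matrix (Fin 3) (Fin 3) K := !![1/4, -45/4, 0; 0, 1, -45/4; 0, 0, 4]

def mZ : Matrix (Fin 3) (Fin 3) K := !![4, 0, 0; 0, 1, 0; 0, 0, 1/4]

def mA : Matrix (Fin 3) (Fin 3) K := !![6, 45, 0; 7, 24, 45; 0, 28, 96]

def mB : Matrix (Fin 3) (Fin 3) K := !![96, 0, 0; 0, 24, 0; 0, 0, 6]

def mC : Matrix (Fin 3) (Fin 3) K := !![-102, -45, 0; -7, -48, -45; 0, -28, -102]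

def PA : Matrix (Fin 3) (Fin 3) K := !![45, -45, 45; 105, -18, -15; 196, 7, 4]

def QA : Matrix (Fin 3) (Fin 3) K :=
  !![1/10440, 1/696, 1/232; -28/2871, -8/319, 5/319; 49/3960, -7/264, 1/88]

def A1 : Matrix (Fin 3) (Fin 3) K := !![111, 0, 0; 0, 24, 0; 0, 0, -9]

def A2 : Matrix (Fin 3) (Fin 3) K :=
  !![264/29, -99/116, 0; -2520/29, 17106/319, -360/11; 0, -1827/44, 696/11]

def A3 : Matrix (Fin 3) (Fin 3) K :=
  !![-3483/29, 99/116, 0; 2520/29, -24762/319, 360/11; 0, 1827/44, -597/11]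

def PC : Matrix (Fin 3) (Fin 3) K := !![45, -45, 45; -75, 0, 21; 28, 7, 28]

def QC : Matrix (Fin 3) (Fin 3) K :=
  !![7/7200, -1/96, 1/160; -4/225, 0, 1/35; 1/288, 1/96, 5/224]

def C1 : Matrix (Fin 3) (Fin 3) K := !![-27, 0, 0; 0, -102, 0; 0, 0, -123]

def C2 : Matrix (Fin 3) (Fin 3) K := !![3, 63/16, 0; 72, 24, 72; 0, 225/16, 99]

def C3 : Matrix (Fin 3) (Fin 3) K := !![24, -63/16, 0; -72, 78, -72; 0, -225/16, 24]

variable [CharZero K]

theorem leonard : IsLeonardTriple (Matrix.toLin' (mA K)) (Matrix.toLin' (mB K))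
    (Matrix.toLin' (mC K)) := by
  refine ⟨?_, ?_, ?_⟩
  · refine good_of_conj (PA K) (QA K) _ _ _ (A1 K) (A2 K) (A3 K) ?_ ?_ ?_ ?_ ?_ ?_ ⟨?_, ?_⟩
      ⟨?_, ?_⟩
    iterate 5
      simp only [PA, QA, mA, mB, mC, A1, A2, A3, Matrix.mul_fin_three, Matrix.one_fin_three]
      norm_num
    all_goals
      intro i j h
      fin_cases i <;> fin_cases j <;> simp_all [A1, A2, A3]
  · refine good_of_conj 1 1 _ _ _ (mB K) (mA K) (mC K) (by simp) (by simp) (by simp) (by simp)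
      (by simp) ?_ ⟨?_, ?_⟩ ⟨?_, ?_⟩
    all_goals
      intro i j h
      fin_cases i <;> fin_cases j <;> simp_all [mA, mB, mC]
  · refine good_of_conj (PC K) (QC K) _ _ _ (C1 K) (C2 K) (C3 K) ?_ ?_ ?_ ?_ ?_ ?_ ⟨?_, ?_⟩
      ⟨?_, ?_⟩
    iterate 5
      simp only [PC, QC, mA, mB, mC, C1, C2, C3, Matrix.mul_fin_three, Matrix.one_fin_three]
      norm_num
    all_goals
      intro i j h
      fin_cases i <;> fin_cases j <;> simp_all [C1, C2, C3]

omit [CharZero K] in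
theorem rel (M N : Matrix (Fin 3) (Fin 3) K)
    (h : ((2 : K) - 2⁻¹)⁻¹ • ((2 : K) • (M * N) - (2 : K)⁻¹ • (N * M)) = 1) :
    ((2 : K) - 2⁻¹)⁻¹ • ((2 : K) • (Matrix.toLin' M * Matrix.toLin' N) -
      (2 : K)⁻¹ • (Matrix.toLin' N * Matrix.toLin' M)) = 1 := by
  have h1 := congrArg (Matrix.toLinAlgEquiv' (R := K) (n := Fin 3)) h
  rw [map_smul, map_sub, map_smul, map_smul, map_mul, map_mul, map_one] at h1
  exact h1

omit [CharZero K] in
theorem mul_one' (M N : Matrix (Fin 3) (Fin 3) K) (h : M * N = 1) :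
    Matrix.toLin' M * Matrix.toLin' N = 1 := by
  have h1 := congrArg (Matrix.toLinAlgEquiv' (R := K) (n := Fin 3)) h
  rw [map_mul, map_one] at h1
  exact h1

theorem irred_aux (W : Submodule K (Fin 3 → K)) (hX : ∀ w ∈ W, Matrix.toLin' (mX K) w ∈ W)
    (hY : ∀ w ∈ W, Matrix.toLin' (mY K) w ∈ W) (hZ : ∀ w ∈ W, Matrix.toLin' (mZ K) w ∈ W) :
    W = ⊥ ∨ W = ⊤ := by
  have aX : ∀ w, Matrix.toLin' (mX K) w = ![1/4 * w 0, 1/4 * w 0 + w 1, w 1 + 4 * w 2] := by
    intro w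
    rw [Matrix.toLin'_apply]
    ext i
    fin_cases i <;> simp [mX, Matrix.mulVec, dotProduct, Fin.sum_univ_three]
  have aY : ∀ w, Matrix.toLin' (mY K) w =
      ![1/4 * w 0 - 45/4 * w 1, w 1 - 45/4 * w 2, 4 * w 2] := by
    intro w
    rw [Matrix.toLin'_apply]
    ext i
    fin_cases i <;> simp [mY, Matrix.mulVec, dotProduct, Fin.sum_univ_three] <;> ring
  have aZ : ∀ w, Matrix.toLin' (mZ K) w = ![4 * w 0, w 1, 1/4 * w 2] := by
    intro w
    rw [Matrix.toLin'_apply]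
    ext i
    fin_cases i <;> simp [mZ, Matrix.mulVec, dotProduct, Fin.sum_univ_three]
  simp only [aX] at hX
  simp only [aY] at hY
  simp only [aZ] at hZ
  -- coordinate projections
  have e0 : ∀ w ∈ W, ![w 0, 0, 0] ∈ W := by
    intro w hw
    have h1 := hZ w hw
    have h2 := hZ _ h1
    have h3 := W.smul_mem (4/45 : K) (W.add_mem (W.sub_mem h2 (W.smul_mem (5/4 : K) h1))
      (W.smul_mem (1/4 : K) hw))
    convert h3 using 1
    ext i
    fin_cases i <;> simp [Matrix.vecHead, Matrix.vecTail] <;> ring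
  have e1 : ∀ w ∈ W, ![0, w 1, 0] ∈ W := by
    intro w hw
    have h1 := hZ w hw
    have h2 := hZ _ h1
    have h3 := W.smul_mem (-4/9 : K) (W.add_mem (W.sub_mem h2 (W.smul_mem (17/4 : K) h1)) hw)
    convert h3 using 1
    ext i
    fin_cases i <;> simp [Matrix.vecHead, Matrix.vecTail] <;> ring
  have e2 : ∀ w ∈ W, ![0, 0, w 2] ∈ W := by
    intro w hw
    have h1 := W.sub_mem (W.sub_mem hw (e0 w hw)) (e1 w hw)
    convert h1 using 1
    ext i
    fin_cases i <;> simp [Matrix.vecHead, Matrix.vecTail]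
  have sc : ∀ (a c : K) (w : Fin 3 → K), a ≠ 0 → a • w ∈ W → c • w ∈ W := by
    intro a c w ha hw
    have := W.smul_mem (c / a) hw
    rwa [smul_smul, div_mul_cancel₀ c ha] at this
  by_cases hW : W = ⊥
  · exact Or.inl hW
  right
  obtain ⟨w, hw, hw0⟩ := Submodule.exists_mem_ne_zero_of_ne_bot hW
  -- some coordinate vector
  have h10 : ∀ a : K, a ≠ 0 → ![a, 0, 0] ∈ W → ∃ b : K, b ≠ 0 ∧ ![0, b, 0] ∈ W := by
    intro a ha h
    have := e1 _ (hX _ h)
    exact ⟨1/4 * a, by simp [ha], by simpa using this⟩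
  have h21 : ∀ a : K, a ≠ 0 → ![0, 0, a] ∈ W → ∃ b : K, b ≠ 0 ∧ ![0, b, 0] ∈ W := by
    intro a ha h
    have := e1 _ (hY _ h)
    exact ⟨-(45/4 * a), by simp [ha], by simpa using this⟩
  have h1 : ∃ b : K, b ≠ 0 ∧ ![0, b, 0] ∈ W := by
    by_cases c0 : w 0 = 0
    · by_cases c1 : w 1 = 0
      · by_cases c2 : w 2 = 0
        · exfalso
          apply hw0
          ext i
          fin_cases i
          · exact c0
          · exact c1
          · exact c2
        · exact h21 _ c2 (e2 w hw)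
      · exact ⟨_, c1, e1 w hw⟩
    · exact h10 _ c0 (e0 w hw)
  obtain ⟨b, hb, hbW⟩ := h1
  have f0 : ![-(45/4 * b), 0, 0] ∈ W := by
    have := e0 _ (hY _ hbW)
    simpa using this
  have f2 : ![0, 0, b] ∈ W := by
    have := e2 _ (hX _ hbW)
    simpa using this
  rw [eq_top_iff]
  intro v _
  have g0 := W.smul_mem (v 0 / -(45/4 * b)) f0
  have g1 := W.smul_mem (v 1 / b) hbW
  have g2 := W.smul_mem (v 2 / b) f2
  have g := W.add_mem (W.add_mem g0 g1) g2
  convert g using 1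
  ext i
  fin_cases i <;> simp <;> field_simp

theorem irred : IsIrredModule (2 : K) (Matrix.toLin' (mX K)) (Matrix.toLin' (mX' K))
    (Matrix.toLin' (mY K)) (Matrix.toLin' (mZ K)) := by
  refine ⟨mul_one' K _ _ ?_, mul_one' K _ _ ?_, rel K _ _ ?_, rel K _ _ ?_, rel K _ _ ?_,
    inferInstance, fun W hX _ hY hZ => irred_aux K W hX hY hZ⟩
  iterate 2
    simp only [mX, mX', Matrix.mul_fin_three, Matrix.one_fin_three]
    norm_num
  iterate 3
    simp only [mX, mY, mZ, Matrix.mul_fin_three, Matrix.one_fin_three]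
    ext i j
    fin_cases i <;> fin_cases j <;> simp <;> norm_num

omit [CharZero K] in
theorem not_comb : ¬ IsComb (Matrix.toLin' (mC K)) (Matrix.toLin' (mZ K)) (Matrix.toLin' (mX K)) ∨
    (45 : K) = 0 := by
  by_cases h45 : (45 : K) = 0
  · exact Or.inr h45
  refine Or.inl ?_
  rintro ⟨a, b, c, d, h⟩
  have h1 := congrArg (fun T => (LinearMap.toMatrix' T) 0 1) h
  simp only [map_add, map_smul, LinearMap.toMatrix'_mul, LinearMap.toMatrix'_toLin'] at h1
  simp [mC, mX, mZ] at h1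
  exact h45 h1

/-- **Q1 is false.** -/
theorem result (K : Type*) [Field K] [CharZero K] :
    (∀ m : ℕ, 0 < m → (2 : K) ^ m ≠ 1) ∧
    ∃ A B C X X' Y Z : Module.End K (Fin 3 → K), IsData 2 A B C X X' Y Z ∧
      ¬ IsComb C Z X ∧ ∀ s, IsDagger A B s → ¬ IsComb (s C) Z X := by
  have hC : ¬ IsComb (Matrix.toLin' (mC K)) (Matrix.toLin' (mZ K)) (Matrix.toLin' (mX K)) :=
    (not_comb K).resolve_right (by norm_num)
  have hCAB : Matrix.toLin' (mC K) = -(Matrix.toLin' (mA K) + Matrix.toLin' (mB K)) := by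
    rw [← map_add, ← map_neg]
    congr 1
    ext i j
    fin_cases i <;> fin_cases j <;> simp [mA, mB, mC] <;> norm_num
  refine ⟨?_, Matrix.toLin' (mA K), Matrix.toLin' (mB K), Matrix.toLin' (mC K),
    Matrix.toLin' (mX K), Matrix.toLin' (mX' K), Matrix.toLin' (mY K), Matrix.toLin' (mZ K),
    ⟨irred K, ⟨0, 28, -4, 0, ?_⟩, ⟨0, 0, 24, 0, ?_⟩, pair_of_triple (leonard K), leonard K⟩,
    hC, ?_⟩
  · intro m hm h
    have h1 : (2 : ℕ) ^ m = 1 := by exact_mod_cast h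
    have h2 : 1 < 2 ^ m := Nat.one_lt_two_pow (by omega)
    omega
  · rw [zero_smul, zero_smul, zero_add, add_zero, ← map_smul, ← map_smul, ← map_add]
    congr 1
    ext i j
    fin_cases i <;> fin_cases j <;> simp [mA, mX, mY] <;> norm_num
  · rw [zero_smul, zero_smul, zero_smul, zero_add, zero_add, add_zero, ← map_smul]
    congr 1
    ext i j
    fin_cases i <;> fin_cases j <;> simp [mB, mZ] <;> norm_num
  · rintro s ⟨-, -, hA, hB⟩
    have h1 : s (Matrix.toLin' (mC K)) = Matrix.toLin' (mC K) := by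
      rw [hCAB, map_neg, map_add, hA, hB]
    rw [h1]
    exact hC

end Pool.Agent.Results.MP_a7ee28_al.ThirdElement
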